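import Mathlib

set_option autoImplicit false

open Set Function Topology Filter

namespace Pool.Agent.GapW

/-- Nonnegative functions vanishing off `s`. -/
def E {ι : Type} (s : Set ι) : Set (ι → ℝ) := {p | (∀ i, 0 ≤ p i) ∧ ∀ i, i ∉ s → p i = 0}

theorem E.mono {ι : Type} {s t : Set ι} (h : s ⊆ t) : E s ⊆ E t :=
  fun _ hp => ⟨hp.1, fun i hi => hp.2 i fun hs => hi (h hs)⟩

theorem E.supp {ι : Type} {s : Set ι} {p : ι → ℝ} (hp : p ∈ E s) : support p ⊆ s := by
  intro i hi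
  by_contra h
  exact hi (hp.2 i h)

theorem E.of_supp {ι : Type} {s : Set ι} {p : ι → ℝ} (h0 : ∀ i, 0 ≤ p i)
    (h : ∀ i, p i ≠ 0 → i ∈ s) : p ∈ E s :=
  ⟨h0, fun i hi => by by_contra hne; exact hi (h i hne)⟩

theorem E.comb {ι : Type} {s : Set ι} {p q : ι → ℝ} (hp : p ∈ E s) (hq : q ∈ E s) {a b : ℝ}
    (ha : 0 ≤ a) (hb : 0 ≤ b) : (fun i => a * p i + b * q i) ∈ E s :=
  ⟨fun i => add_nonneg (mul_nonneg ha (hp.1 i)) (mul_nonneg hb (hq.1 i)),
    fun i hi => by simp [hp.2 i hi, hq.2 i hi]⟩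

/-- A retraction system: `Φ c` maps finitely supported nonnegative functions on `c ∩ S` to such
functions with at most `n + 1` points of support, fixes the functions with at most `n` points of
support, is continuous and is locally determined by finitely many coordinates of `c`. -/
structure Ret {ι : Type} (n : ℕ) (S : Set ι) (Φ : Set ι → (ι → ℝ) → (ι → ℝ)) : Prop where
  mem : ∀ c p, p ∈ E (c ∩ S) → (support p).Finite → Φ c p ∈ E (c ∩ S)
  fin : ∀ c p, p ∈ E (c ∩ S) → (support p).Finite → (support (Φ c p)).Finite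
  card : ∀ c p, p ∈ E (c ∩ S) → (support p).Finite → (support (Φ c p)).ncard ≤ n + 1
  ne : ∀ c p, p ∈ E (c ∩ S) → (support p).Finite → p ≠ 0 → Φ c p ≠ 0
  fix : ∀ c p, p ∈ E (c ∩ S) → (support p).Finite → (support p).ncard ≤ n → Φ c p = p
  loc : ∀ (s : Finset ι) c₀, (s : Set ι) ⊆ c₀ ∩ S → ∃ A B : Finset ι, (B : Set ι) ⊆ c₀ ∩ S ∧
    ∀ c, (∀ i ∈ A, (i ∈ c ↔ i ∈ c₀)) → ∀ p ∈ E (s : Set ι), Φ c p = Φ c₀ p ∧ Φ c₀ p ∈ E (B : Set ι)
  cont : ∀ (s : Finset ι) c₀, (s : Set ι) ⊆ c₀ ∩ S → ContinuousOn (Φ c₀) (E (s : Set ι))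

/-- Composition with a parameter that may jump where the map does not depend on it. -/
theorem comp_param {X Y : Type} [TopologicalSpace X] [TopologicalSpace Y] {D : Set X}
    {H : X × ℝ → Y} (hH : ContinuousOn H (D ×ˢ Icc 0 1)) {u : X → ℝ} (hu : ∀ x ∈ D, u x ∈ Icc (0:ℝ) 1)
    {x₀ : X} (hx₀ : x₀ ∈ D)
    (h : ContinuousWithinAt u D x₀ ∨ ∀ t ∈ Icc (0:ℝ) 1, H (x₀, t) = H (x₀, u x₀)) :
    ContinuousWithinAt (fun x => H (x, u x)) D x₀ := by
  rcases h with h | h
  · have h1 : ContinuousWithinAt H (D ×ˢ Icc 0 1) (x₀, u x₀) := hH _ ⟨hx₀, hu _ hx₀⟩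
    have h2 : ContinuousWithinAt (fun x => (x, u x)) D x₀ := continuousWithinAt_id.prodMk h
    exact h1.comp (f := fun x => (x, u x)) h2 (fun x hx => ⟨hx, hu x hx⟩)
  · unfold ContinuousWithinAt
    rw [tendsto_iff_ultrafilter]
    intro g hg
    have hD : D ∈ g := hg self_mem_nhdsWithin
    have hg2 : (g : Filter X) ≤ 𝓝 x₀ := hg.trans nhdsWithin_le_nhds
    have hI : ((g.map u : Ultrafilter ℝ) : Filter ℝ) ≤ 𝓟 (Icc (0:ℝ) 1) := by
      rw [le_principal_iff, Ultrafilter.mem_coe, Ultrafilter.mem_map]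
      exact mem_of_superset hD hu
    obtain ⟨t, ht, hgt⟩ := isCompact_Icc.ultrafilter_le_nhds _ hI
    have h1 : Tendsto H (𝓝[D ×ˢ Icc 0 1] (x₀, t)) (𝓝 (H (x₀, t))) := hH _ ⟨hx₀, ht⟩
    rw [h t ht] at h1
    refine h1.comp ?_
    rw [tendsto_nhdsWithin_iff]
    refine ⟨?_, ?_⟩
    · rw [nhds_prod_eq]
      exact Tendsto.prodMk hg2 hgt
    · exact mem_of_superset hD fun x hx => ⟨hx, hu x hx⟩

/-! ### Countable index sets -/

theorem exists_ret_zero {ι : Type} (S : Set ι) (hS : S.Countable) :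
    ∃ Φ : Set ι → (ι → ℝ) → (ι → ℝ), Ret 0 S Φ := by
  classical
  obtain ⟨e, he⟩ := Set.countable_iff_exists_injOn.1 hS
  have hmin : ∀ c : Set ι, (c ∩ S).Nonempty → ∃ m ∈ c ∩ S, ∀ j ∈ c ∩ S, e m ≤ e j := by
    intro c hc
    have h1 : (e '' (c ∩ S)).Nonempty := hc.image e
    obtain ⟨m, hm, hm'⟩ := Nat.sInf_mem h1
    exact ⟨m, hm, fun j hj => by rw [hm']; exact Nat.sInf_le ⟨j, hj, rfl⟩⟩
  choose m hm hm' using hmin
  let Φ : Set ι → (ι → ℝ) → (ι → ℝ) := fun c p =>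
    if h : (c ∩ S).Nonempty then Pi.single (m c h) (∑ᶠ i, p i) else p
  have hΦ : ∀ c p (h : (c ∩ S).Nonempty), Φ c p = Pi.single (m c h) (∑ᶠ i, p i) := by
    intro c p h
    simp only [Φ, dif_pos h]
  have hE0 : ∀ c p, p ∈ E (c ∩ S) → ¬ (c ∩ S).Nonempty → p = 0 := by
    intro c p hp h
    funext i
    exact hp.2 i fun hi => h ⟨i, hi⟩
  have hΦ0 : ∀ c p, ¬ (c ∩ S).Nonempty → Φ c p = p := by
    intro c p h
    simp only [Φ, dif_neg h]
  have hsum : ∀ p : ι → ℝ, (∀ i, 0 ≤ p i) → (support p).Finite → p ≠ 0 → 0 < ∑ᶠ i, p i := by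
    intro p hp hf hne
    obtain ⟨i, hi⟩ := Function.ne_iff.1 hne
    have : 0 < p i := lt_of_le_of_ne (hp i) (Ne.symm hi)
    exact finsum_pos hp ⟨i, this⟩ hf
  refine ⟨Φ, ⟨?_, ?_, ?_, ?_, ?_, ?_, ?_⟩⟩
  · intro c p hp hf
    by_cases h : (c ∩ S).Nonempty
    · rw [hΦ c p h]
      refine ⟨fun i => ?_, fun i hi => ?_⟩
      · by_cases hi : i = m c h
        · subst hi; simp only [Pi.single_eq_same]; exact finsum_nonneg hp.1
        · rw [Pi.single_eq_of_ne hi]
      · rw [Pi.single_eq_of_ne]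
        rintro rfl
        exact hi (hm c h)
    · rw [hΦ0 c p h]; exact hp
  · intro c p hp hf
    by_cases h : (c ∩ S).Nonempty
    · rw [hΦ c p h]
      exact (finite_singleton (m c h)).subset (Pi.support_single_subset)
    · rw [hΦ0 c p h]; exact hf
  · intro c p hp hf
    by_cases h : (c ∩ S).Nonempty
    · rw [hΦ c p h]
      calc (support (Pi.single (m c h) (∑ᶠ i, p i))).ncard ≤ ({m c h} : Set ι).ncard :=
            ncard_le_ncard Pi.support_single_subset (finite_singleton _)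
        _ = 0 + 1 := by simp
    · rw [hΦ0 c p h, hE0 c p hp h]
      simp
  · intro c p hp hf hne
    by_cases h : (c ∩ S).Nonempty
    · rw [hΦ c p h]
      intro h0
      have := congrFun h0 (m c h)
      simp only [Pi.single_eq_same, Pi.zero_apply] at this
      exact (hsum p hp.1 hf hne).ne' this
    · exact (hne (hE0 c p hp h)).elim
  · intro c p hp hf hc
    have h0 : p = 0 := by
      have h1 : (support p).ncard = 0 := Nat.le_zero.1 hc
      rw [ncard_eq_zero hf] at h1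
      exact support_eq_empty_iff.1 h1
    subst h0
    by_cases h : (c ∩ S).Nonempty
    · rw [hΦ c _ h]; simp
    · rw [hΦ0 c _ h]
  · intro s c₀ hs
    by_cases hse : s.Nonempty
    · obtain ⟨ξ, hξ⟩ := hse
      have hn₀ : (c₀ ∩ S).Nonempty := ⟨ξ, hs hξ⟩
      have hfin : {i ∈ S | e i ≤ e ξ}.Finite := by
        refine Finite.of_finite_image (f := e) ?_ (he.mono (fun i hi => hi.1))
        exact (finite_Iic (e ξ)).subset (by rintro _ ⟨i, hi, rfl⟩; exact hi.2)
      refine ⟨hfin.toFinset, {m c₀ hn₀}, ?_, ?_⟩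
      · simpa using hm c₀ hn₀
      · intro c hc p hp
        have hA : ∀ i ∈ S, e i ≤ e ξ → (i ∈ c ↔ i ∈ c₀) := fun i hi hi' =>
          hc i (hfin.mem_toFinset.2 ⟨hi, hi'⟩)
        have hξc : ξ ∈ c ∩ S := ⟨(hA ξ (hs hξ).2 le_rfl).2 (hs hξ).1, (hs hξ).2⟩
        have hn : (c ∩ S).Nonempty := ⟨ξ, hξc⟩
        have h1 : m c hn ∈ c₀ := (hA _ (hm c hn).2 (hm' c hn ξ hξc)).1 (hm c hn).1
        have h2 : m c₀ hn₀ ∈ c := (hA _ (hm c₀ hn₀).2 (hm' c₀ hn₀ ξ (hs hξ))).2 (hm c₀ hn₀).1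
        have h3 : m c hn = m c₀ hn₀ := by
          refine he (hm c hn).2 (hm c₀ hn₀).2 (le_antisymm ?_ ?_)
          · exact hm' c hn _ ⟨h2, (hm c₀ hn₀).2⟩
          · exact hm' c₀ hn₀ _ ⟨h1, (hm c hn).2⟩
        rw [hΦ c p hn, hΦ c₀ p hn₀, h3]
        refine ⟨rfl, fun i => ?_, fun i hi => ?_⟩
        · by_cases hi : i = m c₀ hn₀
          · subst hi; simp only [Pi.single_eq_same]; exact finsum_nonneg hp.1
          · rw [Pi.single_eq_of_ne hi]
        · rw [Pi.single_eq_of_ne]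
          rintro rfl
          simp at hi
    · rw [Finset.not_nonempty_iff_eq_empty] at hse
      subst hse
      refine ⟨∅, ∅, by simp, ?_⟩
      intro c _ p hp
      have h0 : p = 0 := by
        funext i
        exact hp.2 i (by simp)
      subst h0
      have hz : ∀ c, Φ c 0 = 0 := by
        intro c
        by_cases h : (c ∩ S).Nonempty
        · rw [hΦ c _ h]; simp
        · rw [hΦ0 c _ h]
      rw [hz, hz]
      exact ⟨rfl, hp⟩
  · intro s c₀ hs
    by_cases h : (c₀ ∩ S).Nonempty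
    · have h1 : ∀ p ∈ E (s : Set ι), Φ c₀ p = Pi.single (m c₀ h) (∑ i ∈ s, p i) := by
        intro p hp
        rw [hΦ c₀ p h, finsum_eq_sum_of_support_subset _ (E.supp hp)]
      refine ContinuousOn.congr ?_ h1
      refine Continuous.continuousOn ?_
      refine continuous_pi fun i => ?_
      by_cases hi : i = m c₀ h
      · subst hi
        simp only [Pi.single_eq_same]
        fun_prop
      · simp only [Pi.single_eq_of_ne hi]
        fun_prop
    · have : Φ c₀ = fun p => p := by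
        funext p
        exact hΦ0 c₀ p h
      rw [this]
      exact continuousOn_id

end Pool.Agent.GapW
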