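import Pool.Agent.GapW.Succ

set_option autoImplicit false

open Set Function Topology Filter
open Cardinal hiding univ

namespace Pool.Agent.GapW

/-- A set of size at most the successor of a cardinal has a ranking with small initial parts. -/
theorem exists_rank {ι : Type} (S : Set ι) (n : ℕ) (hS : #S ≤ ℵ_ (n + 1 : ℕ)) :
    ∃ ρ : ι → Ordinal.{0}, InjOn ρ S ∧ ∀ ζ ∈ S, #{j | j ∈ S ∧ ρ j < ρ ζ} ≤ ℵ_ n := by
  classical
  have h0 : #S ≤ #(ℵ_ (n + 1 : ℕ)).ord.ToType := by rwa [mk_ord_toType]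
  obtain ⟨f⟩ := Cardinal.le_def S _ |>.1 h0
  let ρ : ι → Ordinal.{0} := fun i =>
    if h : i ∈ S then Ordinal.typein (α := (ℵ_ (n + 1 : ℕ)).ord.ToType) (· < ·) (f ⟨i, h⟩) else 0
  have hρ : ∀ i (h : i ∈ S), ρ i =
      Ordinal.typein (α := (ℵ_ (n + 1 : ℕ)).ord.ToType) (· < ·) (f ⟨i, h⟩) := by
    intro i h
    simp only [ρ, dif_pos h]
  refine ⟨ρ, ?_, ?_⟩
  · intro i hi j hj hij
    rw [hρ i hi, hρ j hj, Ordinal.typein_inj] at hij
    have := f.injective hij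
    exact congrArg Subtype.val this
  · intro ζ hζ
    have h1 : #{j | j ∈ S ∧ ρ j < ρ ζ} ≤ #(Iio (f ⟨ζ, hζ⟩)) := by
      refine Cardinal.mk_le_of_injective (f := fun j => ⟨f ⟨j.1, j.2.1⟩, ?_⟩) ?_
      · have h2 : ρ j.1 < ρ ζ := j.2.2
        have h3 : Ordinal.typein (α := (ℵ_ (n + 1 : ℕ)).ord.ToType) (· < ·) (f ⟨j.1, j.2.1⟩) <
            Ordinal.typein (α := (ℵ_ (n + 1 : ℕ)).ord.ToType) (· < ·) (f ⟨ζ, hζ⟩) := by
          rw [← hρ ζ hζ, ← hρ j.1 j.2.1]
          exact h2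
        exact (Ordinal.typein_lt_typein (α := (ℵ_ (n + 1 : ℕ)).ord.ToType) (· < ·)).1 h3
      · intro j k hjk
        have h5 := f.injective (congrArg Subtype.val hjk)
        exact Subtype.ext (congrArg (fun y : S => y.1) h5)
    have h2 : #(Iio (f ⟨ζ, hζ⟩)) < ℵ_ (n + 1 : ℕ) := by
      have := mk_Iio_lt (f ⟨ζ, hζ⟩) (by simp)
      rwa [mk_ord_toType] at this
    have h3 : ℵ_ (n + 1 : ℕ) = Order.succ (ℵ_ n) := by
      rw [Cardinal.succ_aleph]
      congr 1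
    exact h1.trans (Order.lt_succ_iff.1 (h2.trans_eq h3))

theorem exists_ret {ι : Type} (n : ℕ) (S : Set ι) (hS : #S ≤ ℵ_ n) :
    ∃ Φ : Set ι → (ι → ℝ) → (ι → ℝ), Ret n S Φ := by
  induction n generalizing S with
  | zero =>
    refine exists_ret_zero S ?_
    rw [Nat.cast_zero, aleph_zero] at hS
    exact Cardinal.le_aleph0_iff_set_countable.1 hS
  | succ n ih =>
    obtain ⟨ρ, hρ, hcard⟩ := exists_rank S n hS
    have h1 : ∀ ζ, ∃ Φ : Set ι → (ι → ℝ) → (ι → ℝ), ζ ∈ S → Ret n {j ∈ S | ρ j < ρ ζ} Φ := by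
      intro ζ
      by_cases hζ : ζ ∈ S
      · obtain ⟨Φ, hΦ⟩ := ih _ (hcard ζ hζ)
        exact ⟨Φ, fun _ => hΦ⟩
      · exact ⟨fun _ p => p, fun h => (hζ h).elim⟩
    choose φ hφ using h1
    exact ⟨_, ret_succ hρ hφ⟩

/-- **Cover theorem.** A cover of a paracompact Hausdorff space by at most `ℵ_n` clopen sets has a
locally finite open shrinking in which every point is in at most `n + 1` sets. -/
theorem exists_shrink {X ι : Type} [TopologicalSpace X] [T2Space X] [ParacompactSpace X] (n : ℕ)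
    (hι : #ι ≤ ℵ_ n) (C : ι → Set X) (hC : ∀ i, IsClopen (C i)) (hcov : ⋃ i, C i = univ) :
    ∃ W : ι → Set X, (∀ i, IsOpen (W i)) ∧ (∀ i, W i ⊆ C i) ∧ LocallyFinite W ∧
      (⋃ i, W i = univ) ∧ ∀ x, {i | x ∈ W i}.ncard ≤ n + 1 := by
  classical
  obtain ⟨Φ, R⟩ := exists_ret n (univ : Set ι) (by rwa [mk_univ])
  obtain ⟨f, hf⟩ := PartitionOfUnity.exists_isSubordinate (s := (univ : Set X)) isClosed_univ C
    (fun i => (hC i).isOpen) (by rw [hcov])
  let P : X → ι → ℝ := fun x i => f i x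
  let c : X → Set ι := fun x => {i | x ∈ C i}
  have hPc : Continuous P := continuous_pi fun i => (f i).continuous
  have hP : ∀ x, P x ∈ E (c x ∩ univ) := by
    intro x
    refine E.of_supp (fun i => f.nonneg i x) fun i hi => ⟨?_, mem_univ _⟩
    exact hf i (subset_closure hi)
  have hPf : ∀ x, (support (P x)).Finite := fun x => f.locallyFinite.point_finite x
  have hPne : ∀ x, P x ≠ 0 := by
    intro x h0
    have h1 := f.sum_eq_one (mem_univ x)
    have h2 : ∀ i, f i x = 0 := fun i => congrFun h0 i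
    simp [h2] at h1
  let F : X → ι → ℝ := fun x => Φ (c x) (P x)
  -- local structure
  have hloc : ∀ x₀, ∃ B : Finset ι, (∀ᶠ x in 𝓝 x₀, F x ∈ E (B : Set ι)) ∧ ContinuousAt F x₀ := by
    intro x₀
    obtain ⟨t, ht, htf⟩ := f.locallyFinite x₀
    let s₁ : Finset ι := htf.toFinset
    let s : Finset ι := s₁.filter (fun i => x₀ ∈ C i)
    have hs : (s : Set ι) ⊆ c x₀ ∩ univ := by
      intro i hi
      exact ⟨(Finset.mem_filter.1 hi).2, mem_univ _⟩
    obtain ⟨A, B, -, hAB⟩ := R.loc s (c x₀) hs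
    have hnear : ∀ i, ∀ᶠ x in 𝓝 x₀, (x ∈ C i ↔ x₀ ∈ C i) := by
      intro i
      by_cases hi : x₀ ∈ C i
      · filter_upwards [(hC i).isOpen.mem_nhds hi] with x hx
        exact ⟨fun _ => hi, fun _ => hx⟩
      · filter_upwards [(hC i).compl.isOpen.mem_nhds hi] with x hx
        exact ⟨fun h => (hx h).elim, fun h => (hi h).elim⟩
    have hA : ∀ᶠ x in 𝓝 x₀, ∀ i ∈ A ∪ s₁, (i ∈ c x ↔ i ∈ c x₀) := by
      rw [Filter.eventually_all_finset]
      exact fun i _ => hnear i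
    have hN : ∀ᶠ x in 𝓝 x₀, P x ∈ E (s : Set ι) ∧ ∀ i ∈ A, (i ∈ c x ↔ i ∈ c x₀) := by
      filter_upwards [ht, hA] with x hx hx2
      refine ⟨E.of_supp (hP x).1 fun i hi => ?_, fun i hi => hx2 i (Finset.mem_union_left _ hi)⟩
      have h1 : i ∈ s₁ := htf.mem_toFinset.2 ⟨x, hi, hx⟩
      have h2 : i ∈ c x := (E.supp (hP x) hi).1
      exact Finset.mem_coe.2 (Finset.mem_filter.2 ⟨h1, (hx2 i (Finset.mem_union_right _ h1)).1 h2⟩)
    refine ⟨B, ?_, ?_⟩
    · filter_upwards [hN] with x hx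
      have := hAB (c x) hx.2 (P x) hx.1
      simp only [F]
      rw [this.1]
      exact this.2
    · have h1 : F =ᶠ[𝓝 x₀] fun x => Φ (c x₀) (P x) := by
        filter_upwards [hN] with x hx
        exact (hAB (c x) hx.2 (P x) hx.1).1
      refine ContinuousAt.congr ?_ h1.symm
      have h2 : ContinuousWithinAt (Φ (c x₀)) (E (s : Set ι)) (P x₀) :=
        R.cont s (c x₀) hs _ hN.self_of_nhds.1
      refine h2.tendsto.comp ?_
      rw [tendsto_nhdsWithin_iff]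
      exact ⟨hPc.continuousAt, hN.mono fun x hx => hx.1⟩
  have hFc : Continuous F := continuous_iff_continuousAt.2 fun x => (hloc x).choose_spec.2
  refine ⟨fun i => {x | F x i ≠ 0}, fun i => ?_, fun i x hx => ?_, fun x₀ => ?_, ?_, fun x => ?_⟩
  · exact isOpen_ne.preimage ((continuous_apply i).comp hFc)
  · have h1 := R.mem (c x) (P x) (hP x) (hPf x)
    exact (E.supp h1 hx).1
  · obtain ⟨B, hB, -⟩ := hloc x₀
    refine ⟨_, hB, B.finite_toSet.subset ?_⟩
    rintro i ⟨x, hx, hx2⟩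
    exact E.supp hx2 hx
  · refine eq_univ_of_forall fun x => ?_
    obtain ⟨i, hi⟩ := Function.ne_iff.1 (R.ne (c x) (P x) (hP x) (hPf x) (hPne x))
    exact mem_iUnion.2 ⟨i, hi⟩
  · exact R.card (c x) (P x) (hP x) (hPf x)

end Pool.Agent.GapW
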