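import Pool.Agent.GapW.Threads
import Pool.Agent.Gap.IndUpper

set_option autoImplicit false

open Set Function Topology Filter TopologicalSpace Pool.Agent.Gap

namespace Pool.Agent.GapW

/-- Decomposition theorem. -/
theorem exists_decomp {X : Type} [MetricSpace X] (n : ℕ)
    (h : IsTopologicalBasis {s : Set X | IsClopen s})
    (B : Set (Set X)) (hB : IsTopologicalBasis B) (hc : Cardinal.mk B ≤ Cardinal.aleph n) :
    ∃ S : Fin (n + 1) → Set X, (∀ j, SZ (S j)) ∧ ⋃ j, S j = univ := by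
  classical
  obtain ⟨ι, K, hι, hK, hb⟩ := exists_base n h B hB hc
  obtain ⟨W, π, hW, hd, hπ⟩ := exists_seq hι hK hb
  refine ⟨fun j => {x : X | (∀ k, (Th W π k x).ncard ≤ j.1 + 1) ∧
    ∃ k, (Th W π k x).ncard = j.1 + 1}, fun j => sz_level hW hπ hd j.1, ?_⟩
  refine eq_univ_of_forall fun x => ?_
  have hfin : (range fun k => (Th W π k x).ncard).Finite :=
    (finite_Iic (n + 1)).subset (by rintro _ ⟨k, rfl⟩; exact Th_card_le hW k x)
  obtain ⟨_, ⟨k, rfl⟩, hk⟩ := Set.exists_max_image _ id hfin ⟨_, ⟨0, rfl⟩⟩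
  have h1 : 0 < (Th W π k x).ncard := (ncard_pos (Th_fin hW k x)).2 (Th_ne hW hπ k x)
  have h2 : (Th W π k x).ncard ≤ n + 1 := Th_card_le hW k x
  refine mem_iUnion.2 ⟨⟨(Th W π k x).ncard - 1, by omega⟩, fun k' => ?_, k, ?_⟩
  · have h3 : (Th W π k' x).ncard ≤ (Th W π k x).ncard := hk _ ⟨k', rfl⟩
    simp only
    omega
  · simp only
    omega

theorem exists_aleph_le {c : Cardinal.{0}} (h : c < Cardinal.aleph Ordinal.omega0) :
    ∃ n : ℕ, c ≤ Cardinal.aleph n := by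
  by_cases h0 : c < Cardinal.aleph0
  · exact ⟨0, h0.le.trans (Cardinal.aleph0_le_aleph _)⟩
  · push Not at h0
    obtain ⟨o, ho⟩ := Cardinal.mem_range_aleph_iff.2 h0
    rw [← ho, Cardinal.aleph_lt_aleph] at h
    obtain ⟨n, rfl⟩ := Ordinal.lt_omega0.1 h
    exact ⟨n, ho.symm.le⟩

theorem clopen_base_sub {X : Type} [TopologicalSpace X]
    (h : IsTopologicalBasis {s : Set X | IsClopen s}) (Y : Set X) :
    IsTopologicalBasis {s : Set Y | IsClopen s} := by
  refine isTopologicalBasis_of_isOpen_of_nhds (fun s hs => hs.isOpen) fun y U hy hU => ?_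
  obtain ⟨V, hV, rfl⟩ := isOpen_induced_iff.1 hU
  obtain ⟨C, hC, hyC, hCV⟩ := h.exists_subset_of_mem_open (show y.1 ∈ V from hy) hV
  exact ⟨Subtype.val ⁻¹' C, IsClopen.preimage hC continuous_subtype_val, hyC,
    preimage_mono hCV⟩

theorem SZ.image_val {X : Type} [TopologicalSpace X] {Y : Set X} {S : Set Y} (h : SZ S) :
    SZ (Subtype.val '' S : Set X) := by
  have e : S ≃ₜ (Subtype.val '' S : Set X) :=
    (IsEmbedding.subtypeVal (p := fun x => x ∈ Y)).homeomorphImage S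
  exact h.of_isClosedEmbedding e.symm.isClosedEmbedding

theorem SZ.congr_set {X : Type} [TopologicalSpace X] {A B : Set X} (h : A = B) (hA : SZ A) :
    SZ B := by
  subst h
  exact hA

/-- A countable union of subspaces of weight below `ℵ_ω`. -/
theorem countable_dim {X : Type} [MetricSpace X]
    (h : IsTopologicalBasis {s : Set X | IsClopen s}) (Y : ℕ → Set X) (hY : ⋃ k, Y k = univ)
    (hB : ∀ k, ∃ B : Set (Set (Y k)), IsTopologicalBasis B ∧
      Cardinal.mk B < Cardinal.aleph Ordinal.omega0) :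
    ∃ Z : ℕ → Set X, (∀ m, SZ (Z m)) ∧ ⋃ m, Z m = univ := by
  classical
  have h1 : ∀ k, ∃ (n : ℕ) (S : Fin (n + 1) → Set (Y k)), (∀ j, SZ (S j)) ∧ ⋃ j, S j = univ := by
    intro k
    obtain ⟨B, hB1, hB2⟩ := hB k
    obtain ⟨n, hn⟩ := exists_aleph_le hB2
    exact ⟨n, exists_decomp n (clopen_base_sub h (Y k)) B hB1 hn⟩
  choose n S hS hSc using h1
  have hempty : SZ (∅ : Set X) := by
    intro A B _ _ _
    refine ⟨∅, isClopen_empty, fun a _ => (a.2 : False).elim, disjoint_bot_left⟩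
  refine ⟨fun m => if hj : (Nat.unpair m).2 < n (Nat.unpair m).1 + 1 then
    Subtype.val '' (S (Nat.unpair m).1 ⟨(Nat.unpair m).2, hj⟩) else ∅, fun m => ?_, ?_⟩
  · by_cases hj : (Nat.unpair m).2 < n (Nat.unpair m).1 + 1
    · exact SZ.congr_set (dif_pos hj).symm (SZ.image_val (hS _ _))
    · exact SZ.congr_set (dif_neg hj).symm hempty
  · refine eq_univ_of_forall fun x => ?_
    have hx : x ∈ ⋃ k, Y k := by rw [hY]; trivial
    obtain ⟨k, hk⟩ := mem_iUnion.1 hx
    have hx2 : (⟨x, hk⟩ : Y k) ∈ ⋃ j, S k j := by rw [hSc]; trivial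
    obtain ⟨j, hj⟩ := mem_iUnion.1 hx2
    refine mem_iUnion.2 ⟨Nat.pair k j.1, ?_⟩
    have hj2 : (Nat.unpair (Nat.pair k j.1)).2 < n (Nat.unpair (Nat.pair k j.1)).1 + 1 := by
      rw [Nat.unpair_pair]
      exact j.2
    rw [dif_pos hj2]
    have key : ∀ (k' j' : ℕ) (hk' : k' = k) (hj' : j' = j.1) (hlt : j' < n k' + 1),
        x ∈ Subtype.val '' (S k' ⟨j', hlt⟩) := by
      intro k' j' hk' hj' hlt
      subst hk'
      subst hj'
      exact ⟨⟨x, hk⟩, hj, rfl⟩
    refine key _ _ ?_ ?_ _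
    · rw [Nat.unpair_pair]
    · rw [Nat.unpair_pair]

end Pool.Agent.GapW
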