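import Pool.Agent.GapW.Cover

set_option autoImplicit false

open Set Function Topology Filter TopologicalSpace

namespace Pool.Agent.GapW

/-- A locally finite open cover of order at most `n + 1`. -/
structure Cov {X ι : Type} [TopologicalSpace X] (n : ℕ) (W : ι → Set X) : Prop where
  op : ∀ i, IsOpen (W i)
  lf : LocallyFinite W
  cov : ∀ x, ∃ i, x ∈ W i
  card : ∀ x, {i | x ∈ W i}.ncard ≤ n + 1

/-- A base of at most `ℵ_n` clopen sets, as an indexed family. -/
theorem exists_base {X : Type} [TopologicalSpace X] (n : ℕ)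
    (h : IsTopologicalBasis {s : Set X | IsClopen s})
    (B : Set (Set X)) (hB : IsTopologicalBasis B) (hc : Cardinal.mk B ≤ Cardinal.aleph n) :
    ∃ (ι : Type) (K : ι → Set X), Cardinal.mk ι ≤ Cardinal.aleph n ∧ (∀ i, IsClopen (K i)) ∧
      ∀ x U, IsOpen U → x ∈ U → ∃ i, x ∈ K i ∧ K i ⊆ U := by
  classical
  refine ⟨B × B, fun p => if h : ∃ C : Set X, IsClopen C ∧ p.1.1 ⊆ C ∧ C ⊆ p.2.1 then h.choose
    else ∅, ?_, ?_, ?_⟩
  · rw [Cardinal.mk_prod, Cardinal.lift_id]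
    calc Cardinal.mk B * Cardinal.mk B ≤ Cardinal.aleph n * Cardinal.aleph n :=
          mul_le_mul' hc hc
      _ = Cardinal.aleph n := Cardinal.mul_eq_self (Cardinal.aleph0_le_aleph _)
  · intro p
    dsimp only
    split_ifs with hp
    · exact hp.choose_spec.1
    · exact isClopen_empty
  · intro x U hU hx
    obtain ⟨B', hB', hxB', hBU⟩ := hB.exists_subset_of_mem_open hx hU
    obtain ⟨C, hC, hxC, hCB⟩ := h.exists_subset_of_mem_open hxB' (hB.isOpen hB')
    obtain ⟨B₁, hB₁, hxB₁, hBC⟩ := hB.exists_subset_of_mem_open hxC hC.isOpen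
    refine ⟨(⟨B₁, hB₁⟩, ⟨B', hB'⟩), ?_⟩
    have hex : ∃ C : Set X, IsClopen C ∧ B₁ ⊆ C ∧ C ⊆ B' := ⟨C, hC, hBC, hCB⟩
    dsimp only
    rw [dif_pos hex]
    exact ⟨hex.choose_spec.2.1 hxB₁, hex.choose_spec.2.2.trans hBU⟩

section

variable {X ι : Type} [MetricSpace X] {n : ℕ} (hι : Cardinal.mk ι ≤ Cardinal.aleph n)
  {K : ι → Set X} (hK : ∀ i, IsClopen (K i))
  (hb : ∀ x U, IsOpen U → x ∈ U → ∃ i, x ∈ K i ∧ K i ⊆ U)

include hι hK hb in
/-- Refinement of a given family of open sets. -/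
theorem exists_refine (W : ι → Set X) (hW : Cov n W) (ε : ℝ) (hε : 0 < ε) :
    ∃ W' : ι → Set X, Cov n W' ∧ (∀ i, ∀ x ∈ W' i, ∀ y ∈ W' i, dist x y ≤ ε) ∧
      ∃ π : ι → ι, ∀ i x, x ∈ closure (W' i) → x ∈ W (π i) := by
  classical
  let good : ι → Prop := fun i => (∀ x ∈ K i, ∀ y ∈ K i, dist x y ≤ ε) ∧ ∃ j, K i ⊆ W j
  let C : ι → Set X := fun i => if good i then K i else ∅
  have hC : ∀ i, IsClopen (C i) := by
    intro i
    simp only [C]
    split_ifs
    · exact hK i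
    · exact isClopen_empty
  have hcov : ⋃ i, C i = univ := by
    refine eq_univ_of_forall fun x => ?_
    obtain ⟨j, hj⟩ := hW.cov x
    obtain ⟨i, hi, hi2⟩ := hb x (W j ∩ Metric.ball x (ε / 2)) ((hW.op j).inter Metric.isOpen_ball)
      ⟨hj, Metric.mem_ball_self (by positivity)⟩
    have hgood : good i := by
      refine ⟨fun y hy z hz => ?_, j, fun y hy => (hi2 hy).1⟩
      have h1 := Metric.mem_ball.1 (hi2 hy).2
      have h2 := Metric.mem_ball.1 (hi2 hz).2
      have h3 := dist_triangle_right y z x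
      linarith
    refine mem_iUnion.2 ⟨i, ?_⟩
    simp only [C, if_pos hgood]
    exact hi
  obtain ⟨W', h1, h2, h3, h4, h5⟩ := exists_shrink n hι C hC hcov
  have hpi : ∀ i, ∃ j, ∀ x, x ∈ closure (W' i) → x ∈ W j := by
    intro i
    by_cases hg : good i
    · obtain ⟨j, hj⟩ := hg.2
      refine ⟨j, fun x hx => hj ?_⟩
      have h6 : W' i ⊆ K i := by
        have := h2 i
        simp only [C, if_pos hg] at this
        exact this
      exact closure_minimal h6 (hK i).isClosed hx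
    · refine ⟨i, fun x hx => ?_⟩
      have h6 : W' i ⊆ ∅ := by
        have := h2 i
        simp only [C, if_neg hg] at this
        exact this
      rw [subset_empty_iff.1 h6, closure_empty] at hx
      exact hx.elim
  choose π hπ using hpi
  refine ⟨W', ⟨h1, h3, fun x => ?_, h5⟩, fun i x hx y hy => ?_, π, hπ⟩
  · have : x ∈ ⋃ i, W' i := by rw [h4]; trivial
    exact mem_iUnion.1 this
  · have hx' := h2 i hx
    have hy' := h2 i hy
    simp only [C] at hx' hy'
    split_ifs at hx' hy' with hg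
    · exact hg.1 x hx' y hy'
    · exact hx'.elim

include hι hK hb in
theorem exists_seq : ∃ (W : ℕ → ι → Set X) (π : ℕ → ι → ι), (∀ k, Cov n (W k)) ∧
    (∀ k i, ∀ x ∈ W (k + 1) i, ∀ y ∈ W (k + 1) i, dist x y ≤ 1 / ((k : ℝ) + 1)) ∧
    ∀ k i x, x ∈ closure (W (k + 1) i) → x ∈ W k (π k i) := by
  classical
  have h0 : ∃ W : ι → Set X, Cov n W := by
    obtain ⟨W', h1, h2, h3, h4, h5⟩ := exists_shrink n hι K hK (by
      refine eq_univ_of_forall fun x => ?_
      obtain ⟨i, hi, _⟩ := hb x univ isOpen_univ trivial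
      exact mem_iUnion.2 ⟨i, hi⟩)
    refine ⟨W', ⟨h1, h3, fun x => ?_, h5⟩⟩
    have : x ∈ ⋃ i, W' i := by rw [h4]; trivial
    exact mem_iUnion.1 this
  obtain ⟨W₀, hW₀⟩ := h0
  choose! nx hn1 hn2 hn3 using exists_refine hι hK hb
  let V : ℕ → {W : ι → Set X // Cov n W} := fun k =>
    Nat.rec ⟨W₀, hW₀⟩ (fun k W => ⟨nx W.1 (1 / ((k : ℝ) + 1)),
      hn1 W.1 W.2 _ (by positivity)⟩) k
  have hV : ∀ k, (V (k + 1)).1 = nx (V k).1 (1 / ((k : ℝ) + 1)) := fun k => rfl
  have h3 : ∀ k, ∃ π : ι → ι, ∀ i x, x ∈ closure ((V (k + 1)).1 i) → x ∈ (V k).1 (π i) := by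
    intro k
    rw [hV]
    exact hn3 (V k).1 (V k).2 _ (by positivity)
  choose π hπ using h3
  refine ⟨fun k => (V k).1, π, fun k => (V k).2, fun k i x hx y hy => ?_, hπ⟩
  simp only [hV] at hx hy
  exact hn2 (V k).1 (V k).2 _ (by positivity) i x hx y hy

end

end Pool.Agent.GapW
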