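import Pool.Agent.GapW.Base

set_option autoImplicit false

open Set Function Topology Filter

namespace Pool.Agent.GapW

variable {ι : Type}

/-- The level of a function: the least strict bound of the ranks of its support. -/
noncomputable def lev (ρ : ι → Ordinal.{0}) (p : ι → ℝ) : Ordinal.{0} :=
  sInf {α | ∀ i, p i ≠ 0 → ρ i < α}

theorem lev_mem (ρ : ι → Ordinal.{0}) (p : ι → ℝ) : ∀ i, p i ≠ 0 → ρ i < lev ρ p := by
  have hne : {α : Ordinal.{0} | ∀ i, p i ≠ 0 → ρ i < α}.Nonempty := by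
    obtain ⟨b, hb⟩ := Ordinal.bddAbove_of_small (s := range ρ)
    exact ⟨Order.succ b, fun i _ => Order.lt_succ_of_le (hb ⟨i, rfl⟩)⟩
  exact csInf_mem hne

theorem lev_le {ρ : ι → Ordinal.{0}} {p : ι → ℝ} {α : Ordinal.{0}} (h : ∀ i, p i ≠ 0 → ρ i < α) :
    lev ρ p ≤ α := csInf_le' h

/-- `ζ` is the top of the support of `p`. -/
def IsTop (ρ : ι → Ordinal.{0}) (p : ι → ℝ) (ζ : ι) : Prop := p ζ ≠ 0 ∧ ∀ j, p j ≠ 0 → ρ j ≤ ρ ζ

open Classical in
/-- The part of `p` below `ζ`. -/
noncomputable def below (ρ : ι → Ordinal.{0}) (ζ : ι) (p : ι → ℝ) : ι → ℝ :=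
  fun j => if ρ j < ρ ζ then p j else 0

/-- The `ℓ¹` distance. -/
noncomputable def gap (z q : ι → ℝ) : ℝ := ∑ᶠ i, |z i - q i|

open Classical in
/-- The successor step of the construction of retraction systems. -/
noncomputable def Phi (ρ : ι → Ordinal.{0}) (φ : ι → Set ι → (ι → ℝ) → ι → ℝ) (c : Set ι)
    (p : ι → ℝ) : ι → ℝ :=
  if h : ∃ ζ, IsTop ρ p ζ then
    if gap (below ρ h.choose p) (φ h.choose c (below ρ h.choose p)) ≤ p h.choose then
      fun i => φ h.choose c (below ρ h.choose p) i + (Pi.single h.choose (p h.choose -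
        gap (below ρ h.choose p) (φ h.choose c (below ρ h.choose p))) : ι → ℝ) i
    else
      if _hw : lev ρ (fun i => (1 - p h.choose /
            gap (below ρ h.choose p) (φ h.choose c (below ρ h.choose p))) * below ρ h.choose p i +
          p h.choose / gap (below ρ h.choose p) (φ h.choose c (below ρ h.choose p)) *
            φ h.choose c (below ρ h.choose p) i) < lev ρ p then
        Phi ρ φ c (fun i => (1 - p h.choose /
            gap (below ρ h.choose p) (φ h.choose c (below ρ h.choose p))) * below ρ h.choose p i +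
          p h.choose / gap (below ρ h.choose p) (φ h.choose c (below ρ h.choose p)) *
            φ h.choose c (below ρ h.choose p) i)
      else p
  else p
termination_by lev ρ p

/-- The mixed function. -/
noncomputable def mix (u : ℝ) (z q : ι → ℝ) : ι → ℝ := fun i => (1 - u) * z i + u * q i

section

variable {ρ : ι → Ordinal.{0}} {S : Set ι} (hρ : InjOn ρ S)
  {φ : ι → Set ι → (ι → ℝ) → ι → ℝ} {n : ℕ}
  (hφ : ∀ ζ ∈ S, Ret n {j ∈ S | ρ j < ρ ζ} (φ ζ))

theorem gap_nonneg (z q : ι → ℝ) : 0 ≤ gap z q := finsum_nonneg fun _ => abs_nonneg _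

theorem gap_self (z : ι → ℝ) : gap z z = 0 := by simp [gap]

theorem gap_eq_sum {z q : ι → ℝ} (s : Finset ι) (hz : support z ⊆ s) (hq : support q ⊆ s) :
    gap z q = ∑ i ∈ s, |z i - q i| := by
  refine finsum_eq_sum_of_support_subset _ fun i hi => ?_
  by_contra h
  have h1 : z i = 0 := by
    by_contra hne
    exact h (hz hne)
  have h2 : q i = 0 := by
    by_contra hne
    exact h (hq hne)
  exact hi (by simp [h1, h2])

theorem eq_of_gap {z q : ι → ℝ} (hz : (support z).Finite) (hq : (support q).Finite)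
    (h : gap z q = 0) : z = q := by
  classical
  have h1 : gap z q = ∑ i ∈ (hz.toFinset ∪ hq.toFinset), |z i - q i| :=
    gap_eq_sum _ (by simp) (by simp)
  rw [h1, Finset.sum_eq_zero_iff_of_nonneg (fun _ _ => abs_nonneg _)] at h
  funext i
  by_cases hi : i ∈ hz.toFinset ∪ hq.toFinset
  · exact sub_eq_zero.1 (abs_eq_zero.1 (h i hi))
  · simp only [Finset.mem_union, Finite.mem_toFinset, mem_support, not_or, not_not] at hi
    rw [hi.1, hi.2]

theorem below_mem {c : Set ι} {p : ι → ℝ} (hp : p ∈ E (c ∩ S)) (ζ : ι) :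
    below ρ ζ p ∈ E (c ∩ {j ∈ S | ρ j < ρ ζ}) := by
  classical
  refine E.of_supp (fun i => ?_) fun i hi => ?_
  · unfold below; split_ifs
    · exact hp.1 i
    · exact le_rfl
  · unfold below at hi
    split_ifs at hi with h
    · have := E.supp hp hi
      exact ⟨this.1, this.2, h⟩
    · exact (hi rfl).elim

theorem below_fin {p : ι → ℝ} (hf : (support p).Finite) (ζ : ι) :
    (support (below ρ ζ p)).Finite := by
  refine hf.subset fun i hi => ?_
  have h1 : below ρ ζ p i ≠ 0 := hi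
  unfold below at h1
  split_ifs at h1 with h
  · exact h1
  · exact (h1 rfl).elim

include hρ in
theorem below_add {c : Set ι} {p : ι → ℝ} (hp : p ∈ E (c ∩ S)) {ζ : ι} (hζ : ζ ∈ S)
    (ht : ∀ j, p j ≠ 0 → ρ j ≤ ρ ζ) (i : ι) [DecidableEq ι] :
    p i = below ρ ζ p i + (Pi.single ζ (p ζ) : ι → ℝ) i := by
  unfold below
  by_cases hi : i = ζ
  · subst hi
    simp
  · rw [Pi.single_eq_of_ne hi, add_zero]
    split_ifs with h
    · rfl
    · by_contra hne
      have h1 : ρ i = ρ ζ := le_antisymm (ht i hne) (not_lt.1 h)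
      exact hi (hρ (E.supp hp hne).2 hζ h1)

include hρ in
theorem isTop_unique {c : Set ι} {p : ι → ℝ} (hp : p ∈ E (c ∩ S)) {ζ ζ' : ι}
    (h : IsTop ρ p ζ) (h' : IsTop ρ p ζ') : ζ = ζ' :=
  hρ (E.supp hp h.1).2 (E.supp hp h'.1).2 (le_antisymm (h'.2 _ h.1) (h.2 _ h'.1))

theorem exists_isTop {p : ι → ℝ} (hf : (support p).Finite) (hne : p ≠ 0) :
    ∃ ζ, IsTop ρ p ζ := by
  have h1 : (support p).Nonempty := support_nonempty_iff.2 hne
  obtain ⟨ζ, hζ, hmax⟩ := Set.exists_max_image (support p) ρ hf h1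
  exact ⟨ζ, hζ, fun j hj => hmax j hj⟩

include hρ hφ in
/-- The defining equation at the top of the support. -/
theorem Phi_top {c : Set ι} {p : ι → ℝ} (hp : p ∈ E (c ∩ S)) (hf : (support p).Finite)
    {ζ : ι} (h : IsTop ρ p ζ) [DecidableEq ι] :
    Phi ρ φ c p =
      if gap (below ρ ζ p) (φ ζ c (below ρ ζ p)) ≤ p ζ then
        fun i => φ ζ c (below ρ ζ p) i +
          (Pi.single ζ (p ζ - gap (below ρ ζ p) (φ ζ c (below ρ ζ p))) : ι → ℝ) i
      else Phi ρ φ c (mix (p ζ / gap (below ρ ζ p) (φ ζ c (below ρ ζ p))) (below ρ ζ p)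
        (φ ζ c (below ρ ζ p))) := by
  have hex : ∃ ζ, IsTop ρ p ζ := ⟨ζ, h⟩
  have hch : hex.choose = ζ := isTop_unique hρ hp hex.choose_spec h
  have hζ : ζ ∈ S := (E.supp hp h.1).2
  have hq : φ ζ c (below ρ ζ p) ∈ E (c ∩ {j ∈ S | ρ j < ρ ζ}) :=
    (hφ ζ hζ).mem c _ (below_mem hp ζ) (below_fin hf ζ)
  have hw : lev ρ (mix (p ζ / gap (below ρ ζ p) (φ ζ c (below ρ ζ p))) (below ρ ζ p)
        (φ ζ c (below ρ ζ p))) < lev ρ p := by
    refine lt_of_le_of_lt (lev_le (α := ρ ζ) fun i hi => ?_) (lev_mem ρ p ζ h.1)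
    by_contra hlt
    have h1 : below ρ ζ p i = 0 := (below_mem hp ζ).2 i fun hh => hlt hh.2.2
    have h2 : φ ζ c (below ρ ζ p) i = 0 := hq.2 i fun hh => hlt hh.2.2
    exact hi (by simp [mix, h1, h2])
  rw [Phi, dif_pos hex]
  simp only [hch]
  split_ifs with h1 h2
  · funext i
    congr
  · rfl
  · exact (h2 hw).elim

theorem Phi_zero (c : Set ι) : Phi ρ φ c 0 = 0 := by
  rw [Phi, dif_neg]
  rintro ⟨ζ, h, _⟩
  exact h rfl

theorem mix_mem {s : Set ι} {z q : ι → ℝ} (hz : z ∈ E s) (hq : q ∈ E s) {u : ℝ}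
    (hu : u ∈ Icc (0:ℝ) 1) : mix u z q ∈ E s :=
  E.comb hz hq (by linarith [hu.2]) hu.1

theorem mix_fin {z q : ι → ℝ} (hz : (support z).Finite) (hq : (support q).Finite) (u : ℝ) :
    (support (mix u z q)).Finite := by
  refine (hz.union hq).subset fun i hi => ?_
  by_contra h
  simp only [mem_union, mem_support, not_or, not_not] at h
  exact hi (by simp [mix, h.1, h.2])

theorem mix_self (u : ℝ) (z : ι → ℝ) : mix u z z = z := by
  funext i
  simp only [mix]
  ring

theorem ncard_add_single {q : ι → ℝ} (hf : (support q).Finite) (ζ : ι) (a : ℝ) [DecidableEq ι] :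
    (support fun i => q i + (Pi.single ζ a : ι → ℝ) i).Finite ∧
    (support fun i => q i + (Pi.single ζ a : ι → ℝ) i).ncard ≤ (support q).ncard + 1 := by
  have hsub : (support fun i => q i + (Pi.single ζ a : ι → ℝ) i) ⊆ insert ζ (support q) := by
    intro i hi
    by_contra h
    simp only [mem_insert_iff, mem_support, not_or, not_not] at h
    exact hi (by simp [h.2, Pi.single_eq_of_ne h.1])
  refine ⟨(hf.insert ζ).subset hsub, ?_⟩
  exact (ncard_le_ncard hsub (hf.insert ζ)).trans (ncard_insert_le _ _)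

include hρ hφ in
theorem Phi_props (α : Ordinal.{0}) : ∀ (c : Set ι) (p : ι → ℝ), lev ρ p = α → p ∈ E (c ∩ S) →
    (support p).Finite → Phi ρ φ c p ∈ E (c ∩ S) ∧ (support (Phi ρ φ c p)).Finite ∧
      (support (Phi ρ φ c p)).ncard ≤ n + 1 + 1 ∧ (p ≠ 0 → Phi ρ φ c p ≠ 0) ∧
      ((support p).ncard ≤ n + 1 → Phi ρ φ c p = p) := by
  classical
  induction α using WellFoundedLT.induction with
  | ind α ih =>
  intro c p hα hp hf
  by_cases hp0 : p = 0
  · subst hp0
    rw [Phi_zero]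
    refine ⟨hp, hf, by simp, fun h => (h rfl).elim, fun _ => rfl⟩
  obtain ⟨ζ, ht⟩ := exists_isTop (ρ := ρ) hf hp0
  have hζ : ζ ∈ c ∩ S := E.supp hp ht.1
  have R := hφ ζ hζ.2
  have hz := below_mem (ρ := ρ) hp ζ
  have hzf := below_fin (ρ := ρ) hf ζ
  have hq := R.mem c _ hz hzf
  have hqf := R.fin c _ hz hzf
  have hqc := R.card c _ hz hzf
  have hqn := R.ne c _ hz hzf
  have hqx := R.fix c _ hz hzf
  have hadd := fun i => below_add hρ hp hζ.2 ht.2 i
  have hsubE : E (c ∩ {j ∈ S | ρ j < ρ ζ}) ⊆ E (c ∩ S) :=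
    E.mono fun i hi => ⟨hi.1, hi.2.1⟩
  have hsupp : support p = insert ζ (support (below ρ ζ p)) := by
    ext i
    simp only [mem_support, mem_insert_iff]
    rw [hadd i]
    by_cases hi : i = ζ
    · subst hi
      have h0 : below ρ i p i = 0 := by simp [below]
      rw [h0]
      simp only [Pi.single_eq_same, zero_add, true_or, iff_true]
      exact ht.1
    · simp [hi]
  have hζn : ζ ∉ support (below ρ ζ p) := by simp [below]
  have hcard : (support p).ncard ≤ n + 1 → φ ζ c (below ρ ζ p) = below ρ ζ p := by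
    intro hle
    refine hqx ?_
    rw [hsupp, ncard_insert_of_notMem hζn hzf] at hle
    omega
  have hpos : 0 < p ζ := lt_of_le_of_ne (hp.1 ζ) (Ne.symm ht.1)
  rw [Phi_top hρ hφ hp hf ht]
  split_ifs with hle
  · have hsub : 0 ≤ p ζ - gap (below ρ ζ p) (φ ζ c (below ρ ζ p)) := by linarith
    obtain ⟨f1, f2⟩ := ncard_add_single hqf ζ
      (p ζ - gap (below ρ ζ p) (φ ζ c (below ρ ζ p)))
    refine ⟨⟨fun i => ?_, fun i hi => ?_⟩, f1, f2.trans (by omega), ?_, ?_⟩
    · refine add_nonneg (hq.1 i) ?_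
      by_cases hi : i = ζ
      · subst hi; simpa using hsub
      · rw [Pi.single_eq_of_ne hi]
    · have h1 : i ≠ ζ := by rintro rfl; exact hi hζ
      simp only [Pi.single_eq_of_ne h1, add_zero]
      exact (hsubE hq).2 i hi
    · intro _ h0
      by_cases hz0 : below ρ ζ p = 0
      · have h1 : φ ζ c (below ρ ζ p) = below ρ ζ p := by
          refine hqx ?_
          rw [hz0]; simp
        rw [h1, gap_self] at h0
        have := congrFun h0 ζ
        simp only [Pi.single_eq_same, sub_zero, Pi.zero_apply, hz0, zero_add] at this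
        exact ht.1 this
      · obtain ⟨i, hi⟩ := Function.ne_iff.1 (hqn hz0)
        have h1 := congrFun h0 i
        have h2 : 0 < φ ζ c (below ρ ζ p) i := lt_of_le_of_ne (hq.1 i) (Ne.symm hi)
        have h3 : 0 ≤ (Pi.single ζ (p ζ - gap (below ρ ζ p) (φ ζ c (below ρ ζ p))) : ι → ℝ) i := by
          by_cases hi : i = ζ
          · subst hi; simpa using hsub
          · rw [Pi.single_eq_of_ne hi]
        simp only [Pi.zero_apply] at h1
        linarith
    · intro hle'
      rw [hcard hle', gap_self, sub_zero]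
      funext i
      exact (hadd i).symm
  · push Not at hle
    set θ := gap (below ρ ζ p) (φ ζ c (below ρ ζ p)) with hθ
    have hθ0 : 0 < θ := hpos.trans hle
    have hu : p ζ / θ ∈ Icc (0:ℝ) 1 := ⟨by positivity, (div_le_one hθ0).2 hle.le⟩
    have hw := mix_mem hz hq hu
    have hwf := mix_fin hzf hqf (p ζ / θ)
    have hlev : lev ρ (mix (p ζ / θ) (below ρ ζ p) (φ ζ c (below ρ ζ p))) < α := by
      rw [← hα]
      refine lt_of_le_of_lt (lev_le (α := ρ ζ) fun i hi => ?_) (lev_mem ρ p ζ ht.1)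
      exact (E.supp hw hi).2.2
    obtain ⟨i1, i2, i3, i4, i5⟩ := ih _ hlev c _ rfl (hsubE hw) hwf
    refine ⟨i1, i2, i3, fun _ => i4 ?_, fun hle' => ?_⟩
    · intro h0
      have hz0 : below ρ ζ p ≠ 0 := by
        intro hz0
        have h1 : φ ζ c (below ρ ζ p) = below ρ ζ p := by
          refine hqx ?_
          rw [hz0]; simp
        rw [h1, gap_self] at hθ
        linarith
      obtain ⟨i, hi⟩ := Function.ne_iff.1 hz0
      have h1 := congrFun h0 i
      have h2 : 0 < below ρ ζ p i := lt_of_le_of_ne (hz.1 i) (Ne.symm hi)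
      have h3 : 0 < 1 - p ζ / θ := by
        have : p ζ / θ < 1 := (div_lt_one hθ0).2 hle
        linarith
      have h4 : 0 ≤ p ζ / θ * φ ζ c (below ρ ζ p) i := mul_nonneg hu.1 (hq.1 i)
      have h5 : 0 < (1 - p ζ / θ) * below ρ ζ p i := mul_pos h3 h2
      simp only [mix, Pi.zero_apply] at h1
      linarith
    · rw [hcard hle', gap_self] at hθ
      linarith

/-- The parameter of the mixed function. -/
noncomputable def par (a θ : ℝ) : ℝ := if θ ≤ a then 1 else a / θ

theorem par_mem {a θ : ℝ} (ha : 0 ≤ a) : par a θ ∈ Icc (0:ℝ) 1 := by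
  unfold par
  split_ifs with h
  · exact ⟨zero_le_one, le_rfl⟩
  · push Not at h
    have hθ : 0 < θ := lt_of_le_of_lt ha h
    exact ⟨by positivity, (div_le_one hθ).2 h.le⟩

theorem par_eq {a θ : ℝ} (hθ : 0 < θ) : par a θ = min 1 (a / θ) := by
  unfold par
  split_ifs with h
  · rw [min_eq_left]
    exact (one_le_div hθ).2 h
  · rw [min_eq_right]
    exact (div_le_one hθ).2 (not_le.1 h).le

include hρ hφ in
theorem Phi_formula {c : Set ι} {p : ι → ℝ} (hp : p ∈ E (c ∩ S)) (hf : (support p).Finite)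
    {ζ : ι} (hζ : ζ ∈ S) (ht : ∀ j, p j ≠ 0 → ρ j ≤ ρ ζ) [DecidableEq ι] (i : ι) :
    Phi ρ φ c p i =
      (Pi.single ζ (max 0 (p ζ - gap (below ρ ζ p) (φ ζ c (below ρ ζ p)))) : ι → ℝ) i +
      Phi ρ φ c (mix (par (p ζ) (gap (below ρ ζ p) (φ ζ c (below ρ ζ p)))) (below ρ ζ p)
        (φ ζ c (below ρ ζ p))) i := by
  have R := hφ ζ hζ
  have hz := below_mem (ρ := ρ) hp ζ
  have hzf := below_fin (ρ := ρ) hf ζ
  have hq := R.mem c _ hz hzf
  have hqf := R.fin c _ hz hzf
  have hqc := R.card c _ hz hzf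
  have hsubE : E (c ∩ {j ∈ S | ρ j < ρ ζ}) ⊆ E (c ∩ S) :=
    E.mono fun i hi => ⟨hi.1, hi.2.1⟩
  have hadd := fun i => below_add hρ hp hζ ht i
  by_cases h0 : p ζ = 0
  · have hzp : below ρ ζ p = p := by
      funext j
      rw [hadd j, h0]
      simp
    rw [hzp] at hq hqf hqc ⊢
    rw [h0]
    have hg := gap_nonneg p (φ ζ c p)
    rw [max_eq_left (by linarith)]
    rcases hg.eq_or_lt with h | h
    · have h2 := eq_of_gap hf hqf h.symm
      rw [← h2, mix_self]
      simp
    · have : par 0 (gap p (φ ζ c p)) = 0 := by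
        unfold par
        rw [if_neg (not_le.2 h), zero_div]
      rw [this]
      have : mix 0 p (φ ζ c p) = p := by
        funext j
        simp [mix]
      rw [this]
      simp
  · have htop : IsTop ρ p ζ := ⟨h0, ht⟩
    have hpos : 0 < p ζ := lt_of_le_of_ne (hp.1 ζ) (Ne.symm h0)
    rw [Phi_top hρ hφ hp hf htop]
    by_cases hle : gap (below ρ ζ p) (φ ζ c (below ρ ζ p)) ≤ p ζ
    · rw [if_pos hle]
      have hm : mix 1 (below ρ ζ p) (φ ζ c (below ρ ζ p)) = φ ζ c (below ρ ζ p) := by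
        funext j
        simp [mix]
      have hpar : par (p ζ) (gap (below ρ ζ p) (φ ζ c (below ρ ζ p))) = 1 := if_pos hle
      rw [hpar, hm, ((Phi_props hρ hφ _ c _ rfl (hsubE hq) hqf).2.2.2.2 hqc),
        max_eq_right (by linarith)]
      ring
    · rw [if_neg hle]
      have hpar : par (p ζ) (gap (below ρ ζ p) (φ ζ c (below ρ ζ p))) =
        p ζ / gap (below ρ ζ p) (φ ζ c (below ρ ζ p)) := if_neg hle
      rw [hpar, max_eq_left (by linarith [not_le.1 hle])]
      simp

theorem continuous_mix : Continuous fun x : ℝ × (ι → ℝ) × (ι → ℝ) => mix x.1 x.2.1 x.2.2 := by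
  unfold mix
  fun_prop

theorem continuous_below (ζ : ι) : Continuous (below ρ ζ : (ι → ℝ) → ι → ℝ) := by
  classical
  unfold below
  refine continuous_pi fun i => ?_
  split_ifs
  · fun_prop
  · fun_prop

include hρ hφ in
theorem Phi_loc (α : Ordinal.{0}) : ∀ (s : Finset ι) (c₀ : Set ι), (s : Set ι) ⊆ c₀ ∩ S →
    (∀ i ∈ s, ρ i < α) → (∃ A B : Finset ι, (B : Set ι) ⊆ c₀ ∩ S ∧
      ∀ c, (∀ i ∈ A, (i ∈ c ↔ i ∈ c₀)) → ∀ p ∈ E (s : Set ι),
        Phi ρ φ c p = Phi ρ φ c₀ p ∧ Phi ρ φ c₀ p ∈ E (B : Set ι)) ∧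
      ContinuousOn (Phi ρ φ c₀) (E (s : Set ι)) := by
  classical
  induction α using WellFoundedLT.induction with
  | ind α ih =>
  intro s c₀ hs hα
  by_cases hse : s = ∅
  · subst hse
    have h0 : ∀ p ∈ E ((∅ : Finset ι) : Set ι), p = 0 := by
      intro p hp
      funext i
      exact hp.2 i (by simp)
    refine ⟨⟨∅, ∅, by simp, ?_⟩, ?_⟩
    · intro c _ p hp
      have := h0 p hp
      subst this
      rw [Phi_zero, Phi_zero]
      exact ⟨rfl, hp⟩
    · refine ContinuousOn.congr (f := fun _ => (0 : ι → ℝ)) continuousOn_const ?_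
      intro p hp
      rw [h0 p hp, Phi_zero]
  -- the largest element of `s`
  have hsne : (s : Set ι).Nonempty := by
    rw [Finset.coe_nonempty]
    exact Finset.nonempty_iff_ne_empty.2 hse
  obtain ⟨ζ, hζs, hmax⟩ := Set.exists_max_image (s : Set ι) ρ s.finite_toSet hsne
  have hζ : ζ ∈ c₀ ∩ S := hs hζs
  have R := hφ ζ hζ.2
  have hT : ∀ i ∈ s, i ≠ ζ → ρ i < ρ ζ := by
    intro i hi hne
    refine lt_of_le_of_ne (hmax i hi) fun h => hne (hρ (hs hi).2 hζ.2 h)
  have hs' : ((s.erase ζ : Finset ι) : Set ι) ⊆ c₀ ∩ {j ∈ S | ρ j < ρ ζ} := by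
    intro i hi
    have hi' : i ≠ ζ ∧ i ∈ s := Finset.mem_erase.1 hi
    exact ⟨(hs hi'.2).1, (hs hi'.2).2, hT i hi'.2 hi'.1⟩
  obtain ⟨A', B', hB', hAB'⟩ := R.loc _ _ hs'
  have hcont' := R.cont _ _ hs'
  obtain ⟨⟨A'', B'', hB'', hAB''⟩, hcont''⟩ := ih (ρ ζ) (hα ζ hζs) (s.erase ζ ∪ B') c₀ (by
    intro i hi
    rcases Finset.mem_union.1 hi with h | h
    · exact ⟨(hs' h).1, (hs' h).2.1⟩
    · exact ⟨(hB' h).1, (hB' h).2.1⟩) (by
    intro i hi
    rcases Finset.mem_union.1 hi with h | h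
    · exact (hs' h).2.2
    · exact (hB' h).2.2)
  have hbel : ∀ p ∈ E (s : Set ι), below ρ ζ p ∈ E ((s.erase ζ : Finset ι) : Set ι) := by
    intro p hp
    refine E.of_supp (fun i => ?_) fun i hi => ?_
    · unfold below; split_ifs
      · exact hp.1 i
      · exact le_rfl
    · unfold below at hi
      split_ifs at hi with h
      · refine Finset.mem_coe.2 (Finset.mem_erase.2 ⟨?_, E.supp hp hi⟩)
        rintro rfl
        exact lt_irrefl _ h
      · exact (hi rfl).elim
  have hqB : ∀ p ∈ E (s : Set ι), φ ζ c₀ (below ρ ζ p) ∈ E (B' : Set ι) := fun p hp =>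
    (hAB' c₀ (fun _ _ => Iff.rfl) _ (hbel p hp)).2
  have hmixE : ∀ p ∈ E (s : Set ι), ∀ u ∈ Icc (0:ℝ) 1, mix u (below ρ ζ p)
      (φ ζ c₀ (below ρ ζ p)) ∈ E ((s.erase ζ ∪ B' : Finset ι) : Set ι) := by
    intro p hp u hu
    refine mix_mem (E.mono ?_ (hbel p hp)) (E.mono ?_ (hqB p hp)) hu
    · intro i hi; exact Finset.mem_union_left _ hi
    · intro i hi; exact Finset.mem_union_right _ hi
  have hfin : ∀ p ∈ E (s : Set ι), (support p).Finite := fun p hp =>
    s.finite_toSet.subset (E.supp hp)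
  have htop : ∀ p ∈ E (s : Set ι), ∀ j, p j ≠ 0 → ρ j ≤ ρ ζ := fun p hp j hj =>
    hmax j (E.supp hp hj)
  refine ⟨⟨A' ∪ A'' ∪ s, insert ζ B'', ?_, ?_⟩, ?_⟩
  · intro i hi
    rcases Finset.mem_insert.1 hi with h | h
    · rw [h]; exact hζ
    · exact hB'' h
  · intro c hc p hp
    have hsc : (s : Set ι) ⊆ c ∩ S := fun i hi =>
      ⟨(hc i (Finset.mem_union_right _ hi)).2 (hs hi).1, (hs hi).2⟩
    have h1 := hAB' c (fun i hi => hc i (Finset.mem_union_left _ (Finset.mem_union_left _ hi)))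
      _ (hbel p hp)
    have h2 := hAB'' c (fun i hi => hc i (Finset.mem_union_left _ (Finset.mem_union_right _ hi)))
      _ (hmixE p hp (par (p ζ) (gap (below ρ ζ p) (φ ζ c₀ (below ρ ζ p)))) (par_mem (hp.1 ζ)))
    refine ⟨?_, ?_⟩
    · funext i
      rw [Phi_formula hρ hφ (E.mono hsc hp) (hfin p hp) hζ.2 (htop p hp) i,
        Phi_formula hρ hφ (E.mono hs hp) (hfin p hp) hζ.2 (htop p hp) i, h1.1, h2.1]
    · refine ⟨(Phi_props hρ hφ _ c₀ p rfl (E.mono hs hp) (hfin p hp)).1.1, fun i hi => ?_⟩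
      rw [Phi_formula hρ hφ (E.mono hs hp) (hfin p hp) hζ.2 (htop p hp) i]
      have h3 : i ≠ ζ := by
        rintro rfl
        exact hi (Finset.mem_coe.2 (Finset.mem_insert_self _ _))
      have h4 : i ∉ (B'' : Set ι) := fun h => hi (Finset.mem_coe.2 (Finset.mem_insert_of_mem h))
      rw [Pi.single_eq_of_ne h3, zero_add]
      exact h2.2.2 i h4
  · -- continuity
    have hq : ContinuousOn (fun p => φ ζ c₀ (below ρ ζ p)) (E (s : Set ι)) :=
      hcont'.comp (continuous_below ζ).continuousOn hbel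
    have hθ : ContinuousOn (fun p => gap (below ρ ζ p) (φ ζ c₀ (below ρ ζ p)))
        (E (s : Set ι)) := by
      have h1 : ∀ p ∈ E (s : Set ι), gap (below ρ ζ p) (φ ζ c₀ (below ρ ζ p)) =
          ∑ i ∈ s.erase ζ ∪ B', |below ρ ζ p i - φ ζ c₀ (below ρ ζ p) i| := by
        intro p hp
        refine gap_eq_sum _ ?_ ?_
        · refine (E.supp (hbel p hp)).trans fun i hi => ?_
          exact Finset.mem_union_left _ hi
        · refine (E.supp (hqB p hp)).trans fun i hi => ?_
          exact Finset.mem_union_right _ hi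
      refine ContinuousOn.congr ?_ h1
      refine continuousOn_finsetSum _ fun i _ => ?_
      refine ContinuousOn.abs (ContinuousOn.sub ?_ ?_)
      · exact ((continuous_apply i).comp (continuous_below ζ)).continuousOn
      · exact (continuous_apply i).comp_continuousOn hq
    have hH : ContinuousOn (fun x : (ι → ℝ) × ℝ => Phi ρ φ c₀ (mix x.2 (below ρ ζ x.1)
        (φ ζ c₀ (below ρ ζ x.1)))) (E (s : Set ι) ×ˢ Icc 0 1) := by
      refine hcont''.comp ?_ ?_
      · refine continuous_mix.comp_continuousOn (f := fun x : (ι → ℝ) × ℝ =>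
          (x.2, below ρ ζ x.1, φ ζ c₀ (below ρ ζ x.1))) ?_
        refine continuousOn_snd.prodMk (ContinuousOn.prodMk ?_ ?_)
        · exact ((continuous_below ζ).comp continuous_fst).continuousOn
        · exact hq.comp continuousOn_fst fun x hx => hx.1
      · intro x hx
        exact hmixE x.1 hx.1 x.2 hx.2
    have key : ContinuousOn (fun p => Phi ρ φ c₀ (mix (par (p ζ)
        (gap (below ρ ζ p) (φ ζ c₀ (below ρ ζ p)))) (below ρ ζ p)
        (φ ζ c₀ (below ρ ζ p)))) (E (s : Set ι)) := by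
      intro p₀ hp₀
      refine comp_param (H := fun x : (ι → ℝ) × ℝ => Phi ρ φ c₀ (mix x.2 (below ρ ζ x.1)
        (φ ζ c₀ (below ρ ζ x.1)))) (u := fun p => par (p ζ)
        (gap (below ρ ζ p) (φ ζ c₀ (below ρ ζ p)))) hH (fun p hp => par_mem (hp.1 ζ)) hp₀ ?_
      rcases (gap_nonneg (below ρ ζ p₀) (φ ζ c₀ (below ρ ζ p₀))).eq_or_lt with h | h
      · right
        intro t _
        have h1 := eq_of_gap (below_fin (hfin p₀ hp₀) ζ)
          (B'.finite_toSet.subset (E.supp (hqB p₀ hp₀))) h.symm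
        simp only
        rw [← h1, mix_self, mix_self]
      · left
        have h1 : ∀ᶠ p in 𝓝[E (s : Set ι)] p₀, 0 < gap (below ρ ζ p) (φ ζ c₀ (below ρ ζ p)) :=
          (hθ p₀ hp₀).eventually (lt_mem_nhds h)
        have h2 : ContinuousWithinAt (fun p : ι → ℝ => min 1 (p ζ /
            gap (below ρ ζ p) (φ ζ c₀ (below ρ ζ p)))) (E (s : Set ι)) p₀ := by
          refine Filter.Tendsto.min tendsto_const_nhds ?_
          exact ContinuousWithinAt.div (continuous_apply ζ).continuousWithinAt (hθ p₀ hp₀) h.ne'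
        refine h2.congr_of_eventuallyEq ?_ (par_eq h)
        filter_upwards [h1] with p hp
        exact par_eq hp
    have hform : ∀ p ∈ E (s : Set ι), Phi ρ φ c₀ p = fun i =>
        (Pi.single ζ (max 0 (p ζ - gap (below ρ ζ p) (φ ζ c₀ (below ρ ζ p)))) : ι → ℝ) i +
        Phi ρ φ c₀ (mix (par (p ζ) (gap (below ρ ζ p) (φ ζ c₀ (below ρ ζ p)))) (below ρ ζ p)
          (φ ζ c₀ (below ρ ζ p))) i := by
      intro p hp
      funext i
      exact Phi_formula hρ hφ (E.mono hs hp) (hfin p hp) hζ.2 (htop p hp) i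
    refine ContinuousOn.congr ?_ hform
    refine continuousOn_pi.2 fun i => ContinuousOn.add ?_ ?_
    · by_cases hi : i = ζ
      · subst hi
        simp only [Pi.single_eq_same]
        intro p hp
        refine Filter.Tendsto.max tendsto_const_nhds ?_
        exact ((continuous_apply i).continuousOn.sub hθ) p hp
      · simp only [Pi.single_eq_of_ne hi]
        exact continuousOn_const
    · exact (continuous_apply i).comp_continuousOn key

include hρ hφ in
theorem ret_succ : Ret (n + 1) S (Phi ρ φ) := by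
  refine ⟨?_, ?_, ?_, ?_, ?_, ?_, ?_⟩
  · intro c p hp hf
    exact (Phi_props hρ hφ _ c p rfl hp hf).1
  · intro c p hp hf
    exact (Phi_props hρ hφ _ c p rfl hp hf).2.1
  · intro c p hp hf
    exact (Phi_props hρ hφ _ c p rfl hp hf).2.2.1
  · intro c p hp hf
    exact (Phi_props hρ hφ _ c p rfl hp hf).2.2.2.1
  · intro c p hp hf
    exact (Phi_props hρ hφ _ c p rfl hp hf).2.2.2.2
  · intro s c₀ hs
    obtain ⟨b, hb⟩ := Ordinal.bddAbove_of_small (s := range ρ)
    exact (Phi_loc hρ hφ (Order.succ b) s c₀ hs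
      fun i _ => Order.lt_succ_of_le (hb ⟨i, rfl⟩)).1
  · intro s c₀ hs
    obtain ⟨b, hb⟩ := Ordinal.bddAbove_of_small (s := range ρ)
    exact (Phi_loc hρ hφ (Order.succ b) s c₀ hs
      fun i _ => Order.lt_succ_of_le (hb ⟨i, rfl⟩)).2

end

end Pool.Agent.GapW
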