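import Pool.Agent.GapW.Seq
import Pool.Agent.Gap.ZeroDim

set_option autoImplicit false

open Set Function Topology Filter TopologicalSpace

namespace Pool.Agent.GapW

/-- The image at level `k` of the members of level `k + j` that contain `x`. -/
def im {X ι : Type} (W : ℕ → ι → Set X) (π : ℕ → ι → ι) : ℕ → ℕ → X → Set ι
  | 0, k, x => {i | x ∈ W k i}
  | j + 1, k, x => π k '' im W π j (k + 1) x

/-- The members of level `k` that belong to threads at `x`. -/
def Th {X ι : Type} (W : ℕ → ι → Set X) (π : ℕ → ι → ι) (k : ℕ) (x : X) : Set ι :=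
  ⋂ j, im W π j k x

section

variable {X ι : Type} [MetricSpace X] {n : ℕ} {W : ℕ → ι → Set X} {π : ℕ → ι → ι}
  (hW : ∀ k, Cov n (W k)) (hπ : ∀ k i x, x ∈ closure (W (k + 1) i) → x ∈ W k (π k i))

include hW in
theorem im_fin (j k : ℕ) (x : X) : (im W π j k x).Finite := by
  induction j generalizing k with
  | zero => exact (hW k).lf.point_finite x
  | succ j ih => exact (ih (k + 1)).image _

include hW in
theorem im_ne (j k : ℕ) (x : X) : (im W π j k x).Nonempty := by
  induction j generalizing k with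
  | zero => exact (hW k).cov x
  | succ j ih => exact (ih (k + 1)).image _

include hπ in
theorem im_succ (j k : ℕ) (x : X) : im W π (j + 1) k x ⊆ im W π j k x := by
  induction j generalizing k with
  | zero =>
    rintro _ ⟨i, hi, rfl⟩
    exact hπ k i x (subset_closure hi)
  | succ j ih => exact image_mono (ih (k + 1))

include hπ in
theorem im_anti (k : ℕ) (x : X) {j j' : ℕ} (h : j ≤ j') : im W π j' k x ⊆ im W π j k x := by
  induction h with
  | refl => exact Subset.rfl
  | step _ ih => exact (im_succ hπ _ k x).trans ih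

include hW hπ in
theorem Th_stab (k : ℕ) (x : X) : ∃ J, ∀ j ≥ J, im W π j k x = Th W π k x := by
  -- choose `J` with the least cardinality
  have hex : ∃ c, ∃ j, (im W π j k x).ncard = c := ⟨_, 0, rfl⟩
  classical
  obtain ⟨J, hJ⟩ := Nat.find_spec hex
  have hmin : ∀ j, (im W π J k x).ncard ≤ (im W π j k x).ncard := by
    intro j
    rw [hJ]
    exact Nat.find_min' hex ⟨j, rfl⟩
  have heq : ∀ j ≥ J, im W π j k x = im W π J k x := fun j hj =>
    eq_of_subset_of_ncard_le (im_anti hπ k x hj) (hmin j) (im_fin hW J k x)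
  refine ⟨J, fun j hj => ?_⟩
  rw [heq j hj]
  refine Subset.antisymm (subset_iInter fun j' => ?_) (iInter_subset _ J)
  rcases le_total j' J with h | h
  · exact im_anti hπ k x h
  · rw [heq j' h]

include hW hπ in
theorem Th_ne (k : ℕ) (x : X) : (Th W π k x).Nonempty := by
  obtain ⟨J, hJ⟩ := Th_stab hW hπ k x
  rw [← hJ J le_rfl]
  exact im_ne hW J k x

theorem Th_sub (k : ℕ) (x : X) : Th W π k x ⊆ {i | x ∈ W k i} := iInter_subset _ 0

include hW in
theorem Th_fin (k : ℕ) (x : X) : (Th W π k x).Finite :=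
  ((hW k).lf.point_finite x).subset (Th_sub k x)

include hW hπ in
theorem Th_succ (k : ℕ) (x : X) : π k '' Th W π (k + 1) x = Th W π k x := by
  obtain ⟨J, hJ⟩ := Th_stab hW hπ k x
  obtain ⟨J', hJ'⟩ := Th_stab hW hπ (k + 1) x
  rw [← hJ' (max J J') (le_max_right _ _), ← hJ (max J J' + 1) ((le_max_left _ _).trans (Nat.le_succ _))]
  rfl

include hW hπ in
theorem Th_card_mono (x : X) : Monotone fun k => (Th W π k x).ncard := by
  refine monotone_nat_of_le_succ fun k => ?_
  rw [← Th_succ hW hπ k x]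
  exact ncard_image_le (Th_fin hW (k + 1) x)

include hW in
theorem Th_card_le (k : ℕ) (x : X) : (Th W π k x).ncard ≤ n + 1 :=
  (ncard_le_ncard (Th_sub k x) ((hW k).lf.point_finite x)).trans ((hW k).card x)

include hW hπ in
theorem im_usc (j k : ℕ) (x : X) : ∀ᶠ y in 𝓝 x, im W π (j + 1) k y ⊆ im W π j k x := by
  induction j generalizing k with
  | zero =>
    have h := (hW (k + 1)).lf.closure.eventually_subset (fun i => isClosed_closure) x
    filter_upwards [h] with y hy
    rintro _ ⟨i, hi, rfl⟩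
    exact hπ k i x (hy (subset_closure hi))
  | succ j ih =>
    filter_upwards [ih (k + 1)] with y hy
    exact image_mono hy

include hW hπ in
theorem Th_usc (k : ℕ) (x : X) : ∀ᶠ y in 𝓝 x, Th W π k y ⊆ Th W π k x := by
  obtain ⟨J, hJ⟩ := Th_stab hW hπ k x
  filter_upwards [im_usc hW hπ J k x] with y hy
  rw [← hJ J le_rfl]
  exact (iInter_subset _ (J + 1)).trans hy

open Pool.Agent.Gap in
include hW hπ in
/-- The set of points with exactly `m + 1` threads is strongly zero-dimensional. -/
theorem sz_level (hd : ∀ k i, ∀ x ∈ W (k + 1) i, ∀ y ∈ W (k + 1) i, dist x y ≤ 1 / ((k : ℝ) + 1))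
    (m : ℕ) : SZ {x : X | (∀ k, (Th W π k x).ncard ≤ m + 1) ∧ ∃ k, (Th W π k x).ncard = m + 1} := by
  classical
  set Z : Set X := {x : X | (∀ k, (Th W π k x).ncard ≤ m + 1) ∧ ∃ k, (Th W π k x).ncard = m + 1}
    with hZ
  let S : ℕ → Set Z := fun k => {z | (Th W π k z.1).ncard = m + 1}
  refine SZ.of_countable_closed S (fun k => ?_) (fun k => ?_) ?_
  · rw [← isOpen_compl_iff, isOpen_iff_mem_nhds]
    intro z hz
    have h1 : ∀ᶠ y : Z in 𝓝 z, Th W π k y.1 ⊆ Th W π k z.1 :=
      continuous_subtype_val.continuousAt.eventually (Th_usc hW hπ k z.1)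
    filter_upwards [h1] with y hy
    have h2 := ncard_le_ncard hy (Th_fin hW k z.1)
    have h3 : (Th W π k z.1).ncard ≤ m + 1 := z.2.1 k
    have h4 : (Th W π k z.1).ncard ≠ m + 1 := hz
    intro (h5 : (Th W π k y.1).ncard = m + 1)
    omega
  · refine PZ.sz fun ε hε => ?_
    obtain ⟨N, hN⟩ := exists_nat_one_div_lt hε
    refine ⟨Set ι, fun y => Th W π (k + N + 1) y.1.1, fun t => ?_, fun y y' hyy => ?_⟩
    · rw [isOpen_iff_mem_nhds]
      intro y hy
      have h1 : ∀ᶠ y' : S k in 𝓝 y, Th W π (k + N + 1) y'.1.1 ⊆ Th W π (k + N + 1) y.1.1 :=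
        (continuous_subtype_val.comp continuous_subtype_val).continuousAt.eventually
          (Th_usc hW hπ (k + N + 1) y.1.1)
      filter_upwards [h1] with y' hy'
      have hy2 : Th W π (k + N + 1) y.1.1 = t := hy
      show Th W π (k + N + 1) y'.1.1 = t
      rw [← hy2]
      refine eq_of_subset_of_ncard_le hy' ?_ (Th_fin hW _ _)
      have h2 : (Th W π k y'.1.1).ncard = m + 1 := y'.2
      have h3 : (Th W π k y'.1.1).ncard ≤ (Th W π (k + N + 1) y'.1.1).ncard :=
        Th_card_mono hW hπ y'.1.1 (by omega)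
      have h4 := y.1.2.1 (k + N + 1)
      omega
    · simp only at hyy
      obtain ⟨i, hi⟩ := Th_ne hW hπ (k + N + 1) y.1.1
      have h1 : y.1.1 ∈ W (k + N + 1) i := Th_sub _ _ hi
      have h2 : y'.1.1 ∈ W (k + N + 1) i := by
        rw [hyy] at hi
        exact Th_sub _ _ hi
      have h3 := hd (k + N) i _ h1 _ h2
      have h4 : dist y y' = dist y.1.1 y'.1.1 := rfl
      rw [h4]
      refine h3.trans (le_trans ?_ hN.le)
      refine one_div_le_one_div_of_le (by positivity) ?_
      push_cast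
      linarith [(Nat.cast_nonneg k : (0:ℝ) ≤ k)]
  · refine eq_univ_of_forall fun z => ?_
    obtain ⟨k, hk⟩ := z.2.2
    exact mem_iUnion.2 ⟨k, hk⟩

end

end Pool.Agent.GapW
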